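import Pool.Agent.Helper17.SA.St2

/-!
# Project SA, module ALT: question 1 for the alternating groups
-/

set_option autoImplicit false

open scoped Pointwise

namespace Pool.Agent.Helper12.SA

open Equiv Pool.Agent.Helper17.SA

theorem exists_not_bad {G : Type} [Group G] [Finite G] {ι : Type} [Fintype ι]
    (H : ι → Subgroup G) (h : ∑ i, bad (H i) < Nat.card G) : ∃ x, ∀ i, ¬ Bad (H i) x := by
  by_contra hc
  push Not at hc
  choose f hf using hc
  have h1 : Nat.card G ≤ Nat.card (Σ i, {x : G // Bad (H i) x}) := by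
    refine Nat.card_le_card_of_injective (fun x => ⟨f x, ⟨x, hf x⟩⟩) ?_
    intro x y hxy
    exact congrArg (fun s : (Σ i, {x : G // Bad (H i) x}) => (s.2 : G)) hxy
  rw [Nat.card_sigma] at h1
  unfold bad at h
  omega

theorem inter_eq {G : Type} [Group G] {q : ℕ} (P : Sylow q G) (x : G)
    (hx : ¬ Bad (P : Subgroup G) x) :
    (P : Subgroup G) ⊓ MulAut.conj x⁻¹ • (P : Subgroup G) =
      ⨅ Q : Sylow q G, (Q : Subgroup G) := by
  have h1 : (P : Subgroup G) ⊓ MulAut.conj x⁻¹ • (P : Subgroup G) ≤ ⊥ := by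
    intro y hy
    obtain ⟨hy1, hy2⟩ := Subgroup.mem_inf.1 hy
    rw [Subgroup.mem_bot]
    by_contra hne
    apply hx
    refine ⟨y, hy1, hne, ?_⟩
    rw [Subgroup.mem_pointwise_smul_iff_inv_smul_mem] at hy2
    simpa using hy2
  have h2 : ⨅ Q : Sylow q G, (Q : Subgroup G) ≤
      (P : Subgroup G) ⊓ MulAut.conj x⁻¹ • (P : Subgroup G) :=
    le_inf (iInf_le (fun Q : Sylow q G => (Q : Subgroup G)) P)
      (iInf_le (fun Q : Sylow q G => (Q : Subgroup G)) (x⁻¹ • P))
  exact le_antisymm (h1.trans bot_le) h2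

theorem sync_of_lt {G : Type} [Group G] [Finite G] {ι : Type} [Fintype ι] (p : ι → ℕ)
    (P : ∀ i, Sylow (p i) G) (h : ∑ i, bad (P i : Subgroup G) < Nat.card G) :
    ∃ x : G, ∀ i, (P i : Subgroup G) ⊓ MulAut.conj x⁻¹ • (P i : Subgroup G) =
      ⨅ Q : Sylow (p i) G, (Q : Subgroup G) := by
  obtain ⟨x, hx⟩ := exists_not_bad (fun i => (P i : Subgroup G)) h
  exact ⟨x, fun i => inter_eq (P i) x (hx i)⟩

theorem card_alt (m : ℕ) (hm : 5 ≤ m) :
    2 * Nat.card (alternatingGroup (Fin m)) = m.factorial := by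
  have : Nontrivial (Fin m) := Fin.nontrivial_iff_two_le.2 (by omega)
  rw [Nat.card_eq_fintype_card, two_mul_card_alternatingGroup, Fintype.card_perm,
    Fintype.card_fin]

/-- bounds for the primes from the first moment -/
theorem bnd (hBW : StBW) (p N m : ℕ) (R : ℕ → ℕ → ℕ) (H : Subgroup (Perm (Fin m)))
    (hp : p.Prime) (hG : Good p N R) (hN : m / p ≤ N) (hH : IsPGroup p H) (c : ℕ)
    (hc : p - 1 = c) (hc0 : 0 < c) : bad H ≤ W R p m / c := by
  have h := hBW.1 p N m R H hp hG hN hH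
  rw [hc] at h
  rw [Nat.le_div_iff_mul_le hc0, Nat.mul_comm]
  exact h

theorem bounds (hBW : StBW) (hGDT : StGDT) (hGDX : StGDX) (hAN2 : StAN2) (hAN3 : StAN3)
    (hA57 : StA57) (hNUM : StNUM) (hNSM : StNSM) (m : ℕ) (hm : 5 ≤ m) (h8 : m ≠ 8) :
    ∃ b2 b3 b5 b7 : ℕ, b2 + b3 + b5 + b7 + m.factorial / 10000 < m.factorial ∧
    (∀ H : Subgroup (Perm (Fin m)), IsPGroup 2 H → H ≤ alternatingGroup (Fin m) → bad H ≤ b2) ∧
    (∀ H : Subgroup (Perm (Fin m)), IsPGroup 3 H → bad H ≤ b3) ∧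
    (∀ H : Subgroup (Perm (Fin m)), IsPGroup 5 H → bad H ≤ b5) ∧
    (∀ H : Subgroup (Perm (Fin m)), IsPGroup 7 H → bad H ≤ b7) := by
  have p2 : Nat.Prime 2 := by norm_num
  have p3 : Nat.Prime 3 := by norm_num
  have p5 : Nat.Prime 5 := by norm_num
  have p7 : Nat.Prime 7 := by norm_num
  have h5 : ∀ H : Subgroup (Perm (Fin m)), IsPGroup 5 H → bad H ≤ W (RT 5) 5 m / 4 :=
    fun H hH => bnd hBW 5 (m / 5) m (RT 5) H p5 (hGDT 5 _ p5) le_rfl hH 4 rfl (by norm_num)
  have h7 : ∀ H : Subgroup (Perm (Fin m)), IsPGroup 7 H → bad H ≤ W (RT 7) 7 m / 6 :=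
    fun H hH => bnd hBW 7 (m / 7) m (RT 7) H p7 (hGDT 7 _ p7) le_rfl hH 6 rfl (by norm_num)
  by_cases h21 : m ≤ 21
  · refine ⟨We A2 2 m, W A3 3 m / 2, W (RT 5) 5 m / 4, W (RT 7) 7 m / 6, ?_, ?_, ?_, h5, h7⟩
    · have := hNSM.2.2.2.2.1 m hm h21 h8
      unfold odds at this
      omega
    · intro H hH hA
      exact hBW.2 10 m A2 H hGDX.1 (by omega) hH hA
    · intro H hH
      exact bnd hBW 3 7 m A3 H p3 hGDX.2 (by omega) hH 2 rfl (by norm_num)
  · refine ⟨W (RT 2) 2 m, W (RT 3) 3 m / 2, W (RT 5) 5 m / 4, W (RT 7) 7 m / 6, ?_, ?_, ?_,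
      h5, h7⟩
    · by_cases h150 : m < 150
      · exact hNUM m (by omega) h150
      · have e2 := hAN2 m (by omega)
        have e3 := hAN3 m (by omega)
        have e5 := hA57.1 m (by omega)
        have e7 := hA57.2.1 m
        have hF : 0 < m.factorial := Nat.factorial_pos m
        omega
    · intro H hH _
      have := bnd hBW 2 (m / 2) m (RT 2) H p2 (hGDT 2 _ p2) le_rfl hH 1 rfl (by norm_num)
      rwa [Nat.div_one] at this
    · intro H hH
      exact bnd hBW 3 (m / 3) m (RT 3) H p3 (hGDT 3 _ p3) le_rfl hH 2 rfl (by norm_num)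

theorem e8_at (hE8 : StE8) (q : ℕ) (hq : q = 2) (P : Sylow q (alternatingGroup (Fin 8)))
    (h : StarAt (alternatingGroup (Fin 8)) q) :
    bad (P : Subgroup (alternatingGroup (Fin 8))) + 4096 ≤ 20160 := by
  subst hq
  exact hE8.2 P h

/-- the image in the symmetric group -/
def im (m : ℕ) {q : ℕ} (P : Sylow q (alternatingGroup (Fin m))) : Subgroup (Perm (Fin m)) :=
  (P : Subgroup (alternatingGroup (Fin m))).map (alternatingGroup (Fin m)).subtype

theorem im_isPGroup (m : ℕ) {q : ℕ} (P : Sylow q (alternatingGroup (Fin m))) :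
    IsPGroup q (im m P) := P.isPGroup'.map _

theorem im_isPGroup_of (m : ℕ) {q : ℕ} (P : Sylow q (alternatingGroup (Fin m))) (r : ℕ)
    (h : q = r) : IsPGroup r (im m P) := h ▸ im_isPGroup m P

theorem im_le (m : ℕ) {q : ℕ} (P : Sylow q (alternatingGroup (Fin m))) :
    im m P ≤ alternatingGroup (Fin m) := by
  rintro _ ⟨y, _, rfl⟩
  exact y.2

theorem pALT : StTR → StTOT → StBW → StGDT → StGDX → StE8 → StAN2 → StAN3 → StA57 → StNUM →
    StNSM → StALT := by
  intro hTR hTOT hBW hGDT hGDX hE8 hAN2 hAN3 hA57 hNUM hNSM m hm ι _ p hp hinj hstar P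
  classical
  have : Fintype ι := Fintype.ofFinite ι
  have hcard := card_alt m hm
  have htr : ∀ i, 2 * bad (P i : Subgroup (alternatingGroup (Fin m))) ≤ bad (im m (P i)) :=
    fun i => hTR m (p i) (P i) (by omega) (hp i)
  apply sync_of_lt p P
  by_cases h8 : m = 8
  · subst h8
    have p3 : Nat.Prime 3 := by norm_num
    have p5 : Nat.Prime 5 := by norm_num
    have p7 : Nat.Prime 7 := by norm_num
    have ht := hTOT 8 {i : ι // p i ≠ 2} (fun i => p i.1) (fun i => im 8 (P i.1)) 0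
      (W A3 3 8 / 2) (W (RT 5) 5 8 / 4) (W (RT 7) 7 8 / 6) (fun i => hp i.1)
      (fun i j hij => Subtype.ext (hinj hij)) (fun i => im_isPGroup 8 (P i.1))
      (fun i hi => absurd hi i.2)
      (fun i hi => by
        have h := im_isPGroup_of 8 (P i.1) 3 hi
        exact bnd hBW 3 7 8 A3 _ p3 hGDX.2 (by norm_num) h 2 rfl (by norm_num))
      (fun i hi => by
        have h := im_isPGroup_of 8 (P i.1) 5 hi
        exact bnd hBW 5 (8 / 5) 8 (RT 5) _ p5 (hGDT 5 _ p5) le_rfl h 4 rfl (by norm_num))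
      (fun i hi => by
        have h := im_isPGroup_of 8 (P i.1) 7 hi
        exact bnd hBW 7 (8 / 7) 8 (RT 7) _ p7 (hGDT 7 _ p7) le_rfl h 6 rfl (by norm_num))
    have hod := hNSM.2.2.1.2.1
    unfold odds at hod
    have hodd : 2 * ∑ i : {i : ι // p i ≠ 2},
        bad (P i.1 : Subgroup (alternatingGroup (Fin 8))) < 4096 := by
      calc 2 * ∑ i : {i : ι // p i ≠ 2}, bad (P i.1 : Subgroup (alternatingGroup (Fin 8)))
          = ∑ i : {i : ι // p i ≠ 2},
            2 * bad (P i.1 : Subgroup (alternatingGroup (Fin 8))) := Finset.mul_sum _ _ _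
        _ ≤ ∑ i : {i : ι // p i ≠ 2}, bad (im 8 (P i.1)) :=
            Finset.sum_le_sum (fun i _ => htr i.1)
        _ ≤ _ := ht
        _ < 4096 := by
          have : (4 : ℕ) ^ 6 = 4096 := by norm_num
          omega
    have heven : ∑ i : {i : ι // ¬ (p i ≠ 2)},
        bad (P i.1 : Subgroup (alternatingGroup (Fin 8))) ≤ 20160 - 4096 := by
      have : Subsingleton {i : ι // ¬ (p i ≠ 2)} := by
        constructor
        rintro ⟨i, hi⟩ ⟨j, hj⟩
        rw [not_not] at hi hj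
        exact Subtype.ext (hinj (hi.trans hj.symm))
      rcases isEmpty_or_nonempty {i : ι // ¬ (p i ≠ 2)} with h | ⟨⟨i₀, hi₀⟩⟩
      · simp
      · rw [Fintype.sum_subsingleton _ (⟨i₀, hi₀⟩ : {i : ι // ¬ (p i ≠ 2)})]
        have := e8_at hE8 (p i₀) (not_not.1 hi₀) (P i₀) (hstar i₀)
        show bad (P i₀ : Subgroup (alternatingGroup (Fin 8))) ≤ 20160 - 4096
        omega
    have hsplit := Fintype.sum_subtype_add_sum_subtype (fun i => p i ≠ 2)
      (fun i => bad (P i : Subgroup (alternatingGroup (Fin 8))))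
    have h8f : Nat.factorial 8 = 40320 := by decide
    rw [h8f] at hcard
    omega
  · obtain ⟨b2, b3, b5, b7, hb, h2, h3, h5, h7⟩ :=
      bounds hBW hGDT hGDX hAN2 hAN3 hA57 hNUM hNSM m hm h8
    have ht := hTOT m ι p (fun i => im m (P i)) b2 b3 b5 b7 hp hinj
      (fun i => im_isPGroup m (P i))
      (fun i hi => by
        have h := im_isPGroup_of m (P i) _ hi
        exact h2 _ h (im_le m (P i)))
      (fun i hi => by
        have h := im_isPGroup_of m (P i) _ hi
        exact h3 _ h)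
      (fun i hi => by
        have h := im_isPGroup_of m (P i) _ hi
        exact h5 _ h)
      (fun i hi => by
        have h := im_isPGroup_of m (P i) _ hi
        exact h7 _ h)
    have hs : 2 * ∑ i, bad (P i : Subgroup (alternatingGroup (Fin m))) < m.factorial := by
      calc 2 * ∑ i, bad (P i : Subgroup (alternatingGroup (Fin m)))
          = ∑ i, 2 * bad (P i : Subgroup (alternatingGroup (Fin m))) := Finset.mul_sum _ _ _
        _ ≤ ∑ i, bad (im m (P i)) := Finset.sum_le_sum (fun i _ => htr i)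
        _ ≤ _ := ht
        _ < _ := hb
    omega

end Pool.Agent.Helper12.SA
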