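import Pool.Agent.Helper17.SA.St5
import Pool.Agent.Helper96.SyGroup

set_option autoImplicit false

/-!
# Project SA, module LS1: lifting of `(*)` through an elementary abelian normal subgroup
-/

namespace Pool.Agent.Helper12.SA

open Equiv Pool.Agent.Helper17.SA
open scoped Pointwise

open Pool.Agent.Helper96.Sy (core_normal mem_conj_smul eq_one_of_pows conj_complement core_mul commN
  Hyp)

/-- A form of `StarAt` with a conjugating element. -/
theorem starAt_of {G : Type} [Group G] {q : ℕ} (P : Sylow q G) (x : G)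
    (h : ∀ y ∈ P, x * y * x⁻¹ ∈ P → ∀ Q : Sylow q G, y ∈ Q) : StarAt G q := by
  refine ⟨P, x⁻¹ • P, ?_⟩
  rintro y ⟨hy, hy'⟩
  rw [Subgroup.mem_iInf]
  refine h y hy ?_
  have h2 : y ∈ MulAut.conj x⁻¹ • (P : Subgroup G) := hy'
  rwa [mem_conj_smul] at h2

theorem exists_of_starAt {G : Type} [Group G] [Finite G] {q : ℕ} (hq : q.Prime)
    (h : StarAt G q) : ∃ (P : Sylow q G) (x : G),
      ∀ y ∈ P, x * y * x⁻¹ ∈ P → ∀ Q : Sylow q G, y ∈ Q := by
  have hqf : Fact q.Prime := ⟨hq⟩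
  obtain ⟨P, Q, hPQ⟩ := h
  obtain ⟨g, hg⟩ := MulAction.exists_smul_eq G P Q
  refine ⟨P, g⁻¹, fun y hy hy' R => ?_⟩
  have h1 : y ∈ (Q : Subgroup G) := by
    rw [← hg]
    change y ∈ MulAut.conj g • (P : Subgroup G)
    have := (mem_conj_smul (P : Subgroup G) g⁻¹ y).2 hy'
    rwa [inv_inv] at this
  have h2 := hPQ ⟨hy, h1⟩
  rw [Subgroup.mem_iInf] at h2
  exact h2 R

theorem pLS1 : StLS1 := by
  classical
  intro G _ _ N hNn r q hr hq hNc hNr hq2 hodd hstar
  have hrf : Fact r.Prime := ⟨hr⟩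
  have hqf : Fact q.Prime := ⟨hq⟩
  let f : G →* G ⧸ N := QuotientGroup.mk' N
  have hf : Function.Surjective f := QuotientGroup.mk'_surjective N
  have hfN : ∀ x, f x = 1 ↔ x ∈ N := fun x => QuotientGroup.eq_one_iff x
  have hNp : IsPGroup r N := fun a => ⟨1, Subtype.ext (by simpa using hNr a a.2)⟩
  obtain ⟨Pb, xb, hxb⟩ := exists_of_starAt hq hstar
  obtain ⟨P, rfl⟩ := Sylow.mapSurjective_surjective hf q Pb
  obtain ⟨x₀, rfl⟩ := hf xb
  -- the normal subgroup `K`
  let Cq : Subgroup (G ⧸ N) := ⨅ Q : Sylow q (G ⧸ N), (Q : Subgroup (G ⧸ N))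
  have hCn : Cq.Normal := core_normal _ _
  have hCp : IsPGroup q Cq := (P.mapSurjective hf).isPGroup'.to_le (iInf_le _ _)
  let K : Subgroup G := Cq.comap f
  have hKn : K.Normal := hCn.comap f
  have hNK : N ≤ K := by
    intro a ha
    change f a ∈ Cq
    rw [(hfN a).mpr ha]
    exact one_mem _
  let T : Subgroup G := (P : Subgroup G) ⊓ K
  have hTP : T ≤ P := inf_le_left
  have hTK : T ≤ K := inf_le_right
  have hTp : IsPGroup q T := P.isPGroup'.to_le hTP
  -- elements of the intersection lie in `T`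
  have hD : ∀ n ∈ N, ∀ y ∈ P, (x₀ * n) * y * (x₀ * n)⁻¹ ∈ P → y ∈ T := by
    intro n hn y hy hy'
    refine ⟨hy, ?_⟩
    change f y ∈ Cq
    rw [Subgroup.mem_iInf]
    apply hxb (f y) (Subgroup.mem_map_of_mem f hy)
    have h1 := Subgroup.mem_map_of_mem f hy'
    have h2 : f (x₀ * n * y * (x₀ * n)⁻¹) = f x₀ * f y * (f x₀)⁻¹ := by
      rw [map_mul, map_mul, map_mul, map_inv, map_mul, (hfN n).mpr hn, mul_one]
    rw [h2] at h1
    exact h1
  by_cases hqr : q = r
  · -- the prime of `N`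
    refine starAt_of P x₀ fun y hy hy' Q => ?_
    have hyT : y ∈ T := hD 1 N.one_mem y hy (by rwa [mul_one])
    have hKp : IsPGroup q K := by
      apply hCp.comap_of_ker_isPGroup f
      rw [QuotientGroup.ker_mk', hqr]
      exact hNp
    exact hKp.le_sylow_of_normal Q (hTK hyT)
  -- every element of `K` is a product
  have hKT : ∀ k ∈ K, ∃ t ∈ T, ∃ n ∈ N, t * n = k := by
    intro k hk
    have h1 : f k ∈ (P.mapSurjective hf : Subgroup (G ⧸ N)) := (iInf_le _ _ : Cq ≤ _) hk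
    obtain ⟨a, ha, hak⟩ := h1
    have h2 : a⁻¹ * k ∈ N := by
      rw [← hfN, map_mul, map_inv, hak, inv_mul_cancel]
    refine ⟨a, ⟨ha, ?_⟩, a⁻¹ * k, h2, by group⟩
    change f a ∈ Cq
    rw [hak]
    exact hk
  -- the translating element
  obtain ⟨m, hmN, hm⟩ : ∃ n ∈ N, ∀ y, x₀ * y * x₀⁻¹ ∈ T ↔ n * y * n⁻¹ ∈ T := by
    obtain ⟨n, hn, h1⟩ := conj_complement hq hr hqr N K T (MulAut.conj x₀⁻¹ • T)
      hNr hNK hTp (hTp.map _) hTK
      (by
        intro y hy
        rw [mem_conj_smul] at hy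
        have h2 := hKn.conj_mem _ (hTK hy) x₀⁻¹
        have h3 : x₀⁻¹ * (x₀ * y * x₀⁻¹) * x₀⁻¹⁻¹ = y := by group
        rwa [h3] at h2)
      hKT
      (by
        intro k hk
        obtain ⟨t, ht, m, hm, htm⟩ := hKT _ (hKn.conj_mem k hk x₀)
        refine ⟨x₀⁻¹ * t * x₀, ?_, x₀⁻¹ * m * x₀, ?_, ?_⟩
        · rw [mem_conj_smul]
          have h3 : x₀ * (x₀⁻¹ * t * x₀) * x₀⁻¹ = t := by group
          rwa [h3]
        · have := hNn.conj_mem m hm x₀⁻¹
          rwa [inv_inv] at this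
        · calc x₀⁻¹ * t * x₀ * (x₀⁻¹ * m * x₀) = x₀⁻¹ * (t * m) * x₀ := by group
            _ = k := by rw [htm]; group)
    refine ⟨n, hn, fun y => ?_⟩
    rw [← h1, mem_conj_smul]
  -- the core lemma
  obtain ⟨v, hvN, hv⟩ : ∃ v ∈ N, ∀ y ∈ T,
      y * (v * m) * y⁻¹ = v * m → ∀ a ∈ N, y * a * y⁻¹ = a := by
    let _ : CommGroup N := commN N hNc
    obtain ⟨b, hb⟩ := IsPGroup.iff_card.mp hNp
    obtain ⟨v, hv⟩ := core_mul (fun _ : Unit => q) (fun _ => hq)
      (fun _ _ _ => Subsingleton.elim _ _) N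
      (fun _ => T.map (MulAut.conjNormal : G →* MulAut N))
      (by
        intro i
        rw [hb]
        apply Nat.Coprime.pow_left
        exact (Nat.coprime_primes hr hq).mpr (Ne.symm hqr))
      (fun _ => hTp.map _)
      (fun i j hij => absurd (Subsingleton.elim i j) hij)
      (by
        intro i
        right
        refine ⟨hq2, ?_⟩
        rcases hodd with h2 | h2
        · exact Or.inl h2
        · by_cases hr2 : r = 2
          · subst hr2
            exact Or.inr ⟨⟨b, hb⟩, h2⟩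
          · left
            rw [hb]
            exact (hr.odd_of_ne_two hr2).pow)
      (fun _ => ⟨m, hmN⟩)
    refine ⟨v, v.2, ?_⟩
    rintro y hy hfix a ha
    have h1 := hv () (MulAut.conjNormal y) ⟨y, hy, rfl⟩ (Subtype.ext (by
      rw [MulAut.conjNormal_apply]
      exact hfix))
    have h2 : ((MulAut.conjNormal y : MulAut N) ⟨a, ha⟩ : G) = a := by rw [h1]; rfl
    rw [MulAut.conjNormal_apply] at h2
    exact h2
  refine starAt_of P (x₀ * v) fun y hy hxy Q => ?_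
  have hyT := hD v hvN y hy hxy
  have hcop : ∀ k, Nat.Coprime (q ^ k) r := fun k => by
    apply Nat.Coprime.pow_left
    exact (Nat.coprime_primes hq hr).mpr hqr
  have hNT : ∀ m ∈ N, m ∈ T → m = 1 := by
    intro m hm hmT
    obtain ⟨k, hk⟩ := hTp ⟨m, hmT⟩
    exact eq_one_of_pows (hcop k) (congrArg Subtype.val hk) (hNr m hm)
  have hxT : (x₀ * v) * y * (x₀ * v)⁻¹ ∈ T := ⟨hxy, hKn.conj_mem _ (hTK hyT) _⟩
  have hs : m * (v * y * v⁻¹) * m⁻¹ ∈ T := by
    rw [← hm]
    have h1 : x₀ * (v * y * v⁻¹) * x₀⁻¹ = (x₀ * v) * y * (x₀ * v)⁻¹ := by group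
    rw [h1]
    exact hxT
  have hs2 : (m * (v * y * v⁻¹) * m⁻¹) * y⁻¹ ∈ N := by
    rw [← hfN]
    simp only [map_mul, map_inv, (hfN m).mpr hmN, (hfN v).mpr hvN, one_mul, inv_one, mul_one,
      mul_inv_cancel]
  have hs3 := hNT _ hs2 (T.mul_mem hs (T.inv_mem hyT))
  have hcen := hv y hyT (by
    have h1 : m * v = v * m := hNc m hmN v hvN
    rw [mul_inv_eq_one] at hs3
    rw [← h1]
    rw [mul_inv_eq_iff_eq_mul]
    calc y * (m * v) = (m * (v * y * v⁻¹) * m⁻¹) * (m * v) := by rw [hs3]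
      _ = m * v * y := by group)
  -- the centralizer of `N` in `T` is a normal `q`-subgroup
  let C : Subgroup G :=
    { carrier := {c | c ∈ T ∧ ∀ a ∈ N, c * a = a * c}
      one_mem' := ⟨T.one_mem, fun a _ => by rw [one_mul, mul_one]⟩
      mul_mem' := by
        rintro c d ⟨hc, hc'⟩ ⟨hd, hd'⟩
        refine ⟨T.mul_mem hc hd, fun a ha => ?_⟩
        rw [mul_assoc, hd' a ha, ← mul_assoc, hc' a ha, mul_assoc]
      inv_mem' := by
        rintro c ⟨hc, hc'⟩
        refine ⟨T.inv_mem hc, fun a ha => ?_⟩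
        exact ((show Commute c a from hc' a ha).inv_left).eq }
  have hCnorm : C.Normal := by
    constructor
    rintro c ⟨hc, hc'⟩ g
    have hcent : ∀ a ∈ N, (g * c * g⁻¹) * a = a * (g * c * g⁻¹) := by
      intro a ha
      have h1 : g⁻¹ * a * g ∈ N := by
        have := hNn.conj_mem a ha g⁻¹
        rwa [inv_inv] at this
      calc g * c * g⁻¹ * a = g * (c * (g⁻¹ * a * g)) * g⁻¹ := by group
        _ = g * ((g⁻¹ * a * g) * c) * g⁻¹ := by rw [hc' _ h1]
        _ = a * (g * c * g⁻¹) := by group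
    refine ⟨?_, hcent⟩
    obtain ⟨t, ht, l, hl, htl⟩ := hKT _ (hKn.conj_mem c (hTK hc) g)
    have htl' : t = (g * c * g⁻¹) * l⁻¹ := by rw [← htl]; group
    have hcomm : Commute t l := by
      have h1 : Commute (g * c * g⁻¹) l := hcent l hl
      rw [htl']
      exact h1.mul_left (Commute.refl l).inv_left
    obtain ⟨k1, hk1⟩ := hTp ⟨t, ht⟩
    obtain ⟨k2, hk2⟩ := hTp ⟨c, hc⟩
    have hk1' : t ^ (q ^ k1) = 1 := congrArg Subtype.val hk1
    have hk2' : c ^ (q ^ k2) = 1 := congrArg Subtype.val hk2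
    have hl1 : l ^ (q ^ (k1 + k2)) = 1 := by
      have h1 : l = t⁻¹ * (g * c * g⁻¹) := by rw [← htl]; group
      have h2 : Commute t⁻¹ (g * c * g⁻¹) := by
        rw [← htl]
        exact ((Commute.refl t).mul_right hcomm).inv_left
      have h3 : t ^ (q ^ (k1 + k2)) = 1 := by rw [pow_add, pow_mul, hk1', one_pow]
      have h4 : c ^ (q ^ (k1 + k2)) = 1 := by rw [add_comm, pow_add, pow_mul, hk2', one_pow]
      rw [h1, h2.mul_pow, conj_pow, inv_pow, h3, h4, inv_one, one_mul, mul_one, mul_inv_cancel]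
    have hl2 : l = 1 := eq_one_of_pows (hcop _) hl1 (hNr l hl)
    rw [← htl, hl2, mul_one]
    exact ht
  have hCpg : IsPGroup q C := hTp.to_le (fun c hc => hc.1)
  refine hCpg.le_sylow_of_normal Q ⟨hyT, fun a ha => ?_⟩
  have := hcen a ha
  rwa [mul_inv_eq_iff_eq_mul] at this

end Pool.Agent.Helper12.SA
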